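import Pool.Agent.Helper52.KT.St

/-!
# KT module BC: counting conflicts with one arc
-/

set_option autoImplicit false

namespace Pool.Agent.Helper40.KT

open Pool.Agent.Helper26.Kempe Pool.Agent.Helper52.KT Pool.Agent.Helper52.KT.St
open Pool.Agent.Helper52.KR (N Zc Mn Hs mem_N)
open scoped Classical

theorem hBC : BC := by
  intro hWC V _ k G f M D u a L hf hD hB
  set S1 : ℕ → V → Fin k → Finset (V × Fin k) := fun n x c0 =>
    (Finset.univ : Finset (V × Fin k)).filter (fun p => p.2 ≠ f p.1 ∧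
      x ∈ Wk G f M p.1 p.2 n ∧ Equiv.swap (f p.1) p.2 (f x) = c0) with hS1
  have hS1c : ∀ n x c0, (S1 n x c0).card ≤ (M + 1) ^ n := fun n x c0 =>
    hWC V k G f M hf n x c0
  have hpow : ∀ n, n ≤ M → (M + 1) ^ n ≤ (M + 1) ^ M := fun n hn =>
    Nat.pow_le_pow_right (Nat.succ_pos M) hn
  -- the sum is the number of pairs
  have h1 : ∑ z, bad G f M (u :: a :: L) z =
      ((Finset.univ : Finset (V × Fin k)).filter (fun p => p.2 ≠ f p.1 ∧
        Cx G f M (u :: a :: L) p.1 p.2)).card := by
    unfold bad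
    simp only [Finset.card_filter]
    rw [Fintype.sum_prod_type]
  rw [h1]
  set A1 : Finset (V × Fin k) := (N G a).image (fun z => (z, f a)) with hA1
  set A2 : Finset (V × Fin k) := (Finset.range M).biUnion (fun n =>
    (N G a).biUnion (fun y => S1 n y (f a))) with hA2
  set A3 : Finset (V × Fin k) := (Finset.range (M + 1)).biUnion (fun n =>
    (Bc G f a u).biUnion (fun κ => (N G κ).biUnion (fun x =>
      S1 n x (Equiv.swap (f a) (f u) (f κ))))) with hA3
  have hsub : (Finset.univ : Finset (V × Fin k)).filter (fun p => p.2 ≠ f p.1 ∧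
        Cx G f M (u :: a :: L) p.1 p.2) ⊆ A1 ∪ A2 ∪ A3 := by
    rintro ⟨z, c⟩ hp
    obtain ⟨-, hne, hC⟩ := Finset.mem_filter.mp hp
    rw [Finset.mem_union, Finset.mem_union]
    rcases Cx_cons.mp hC with ⟨h2, h3⟩ | ⟨n, hn, x, hx, h2⟩
    · left; left
      rw [hA1, Finset.mem_image]
      exact ⟨z, mem_N.mpr h2.symm, by rw [h3]⟩
    rcases h2 with ⟨rfl, hza⟩ | ⟨κ, hκ, hadj, hsw⟩
    · left; right
      cases n with
      | zero =>
        exfalso
        simp only [Wk, Finset.mem_singleton] at hx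
        exact hza hx.symm
      | succ n =>
        obtain ⟨y, hy, hyx, hcol, -⟩ := mem_Wk_succ.mp hx
        have h4 := swap_of_adj hf hyx (Wk_col hy) hcol
        rw [hA2, Finset.mem_biUnion]
        refine ⟨n, Finset.mem_range.mpr hn, Finset.mem_biUnion.mpr ⟨y, mem_N.mpr hyx.symm, ?_⟩⟩
        rw [hS1]
        exact Finset.mem_filter.mpr ⟨Finset.mem_univ _, hne, hy, h4.symm⟩
    · right
      rw [hA3, Finset.mem_biUnion]
      refine ⟨n, Finset.mem_range.mpr (Nat.lt_succ_of_le hn), Finset.mem_biUnion.mpr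
        ⟨κ, hκ, Finset.mem_biUnion.mpr ⟨x, mem_N.mpr hadj, ?_⟩⟩⟩
      rw [hS1]
      exact Finset.mem_filter.mpr ⟨Finset.mem_univ _, hne, hx, hsw⟩
  have c1 : A1.card ≤ D := (Finset.card_image_le).trans (hD a)
  have c2 : A2.card ≤ M * (D * (M + 1) ^ M) := by
    refine Finset.card_biUnion_le.trans ?_
    calc ∑ n ∈ Finset.range M, ((N G a).biUnion (fun y => S1 n y (f a))).card
        ≤ ∑ _n ∈ Finset.range M, D * (M + 1) ^ M := by
          refine Finset.sum_le_sum fun n hn => ?_
          refine Finset.card_biUnion_le.trans ?_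
          calc ∑ y ∈ N G a, (S1 n y (f a)).card ≤ ∑ _y ∈ N G a, (M + 1) ^ M :=
                Finset.sum_le_sum fun y _ =>
                  (hS1c n y (f a)).trans (hpow n (Finset.mem_range.mp hn).le)
            _ = (N G a).card * (M + 1) ^ M := by rw [Finset.sum_const, smul_eq_mul]
            _ ≤ D * (M + 1) ^ M := Nat.mul_le_mul_right _ (hD a)
      _ = M * (D * (M + 1) ^ M) := by rw [Finset.sum_const, Finset.card_range, smul_eq_mul]
  have c3 : A3.card ≤ (M + 1) * (M * (D * (M + 1) ^ M)) := by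
    refine Finset.card_biUnion_le.trans ?_
    calc ∑ n ∈ Finset.range (M + 1), ((Bc G f a u).biUnion (fun κ => (N G κ).biUnion (fun x =>
        S1 n x (Equiv.swap (f a) (f u) (f κ))))).card
        ≤ ∑ _n ∈ Finset.range (M + 1), M * (D * (M + 1) ^ M) := by
          refine Finset.sum_le_sum fun n hn => ?_
          refine Finset.card_biUnion_le.trans ?_
          calc ∑ κ ∈ Bc G f a u, ((N G κ).biUnion (fun x =>
                S1 n x (Equiv.swap (f a) (f u) (f κ)))).card
              ≤ ∑ _κ ∈ Bc G f a u, D * (M + 1) ^ M := by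
                refine Finset.sum_le_sum fun κ _ => ?_
                refine Finset.card_biUnion_le.trans ?_
                calc ∑ x ∈ N G κ, (S1 n x (Equiv.swap (f a) (f u) (f κ))).card
                    ≤ ∑ _x ∈ N G κ, (M + 1) ^ M := Finset.sum_le_sum fun x _ =>
                      (hS1c n x _).trans (hpow n (Nat.lt_succ_iff.mp (Finset.mem_range.mp hn)))
                  _ = (N G κ).card * (M + 1) ^ M := by rw [Finset.sum_const, smul_eq_mul]
                  _ ≤ D * (M + 1) ^ M := Nat.mul_le_mul_right _ (hD κ)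
            _ = (Bc G f a u).card * (D * (M + 1) ^ M) := by rw [Finset.sum_const, smul_eq_mul]
            _ ≤ M * (D * (M + 1) ^ M) := Nat.mul_le_mul_right _ hB
      _ = (M + 1) * (M * (D * (M + 1) ^ M)) := by
          rw [Finset.sum_const, Finset.card_range, smul_eq_mul]
  have hone : 1 ≤ (M + 1) ^ M := Nat.one_le_pow _ _ (Nat.succ_pos M)
  have c1' : D ≤ D * (M + 1) ^ M := Nat.le_mul_of_pos_right D hone
  calc ((Finset.univ : Finset (V × Fin k)).filter (fun p => p.2 ≠ f p.1 ∧
        Cx G f M (u :: a :: L) p.1 p.2)).card ≤ (A1 ∪ A2 ∪ A3).card := Finset.card_le_card hsub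
    _ ≤ A1.card + A2.card + A3.card := (Finset.card_union_le _ _).trans
        (Nat.add_le_add_right (Finset.card_union_le _ _) _)
    _ ≤ D * (M + 1) ^ M + M * (D * (M + 1) ^ M) + (M + 1) * (M * (D * (M + 1) ^ M)) := by
        have := c1.trans c1'
        omega
    _ ≤ (M + 2) * (M + 1) ^ (M + 1) * D := by
        have e1 : (M + 2) * (M + 1) ^ (M + 1) * D = (M * M + 3 * M + 2) * (D * (M + 1) ^ M) := by
          ring
        have e2 : D * (M + 1) ^ M + M * (D * (M + 1) ^ M) + (M + 1) * (M * (D * (M + 1) ^ M)) =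
            (M * M + 2 * M + 1) * (D * (M + 1) ^ M) := by ring
        rw [e1, e2]
        exact Nat.mul_le_mul_right _ (by omega)

end Pool.Agent.Helper40.KT
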