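import Pool.Agent.Helper52.KT.St

/-!
# KT module EX: valid extensions
-/

set_option autoImplicit false

namespace Pool.Agent.Helper40.KT

open Pool.Agent.Helper26.Kempe Pool.Agent.Helper52.KT Pool.Agent.Helper52.KT.St
open Pool.Agent.Helper52.KR (N Zc Mn Hs mem_N)
open scoped Classical

theorem hEX : EX := by
  intro hNL hWB V _ k G W M f o z y0 L c b hf hV hcz hcy hC hb hA hLAC
  obtain ⟨hzb, hfb⟩ := mem_S.mp hb
  refine vd_cons.mpr ⟨hA, ?_, ?_, hV⟩
  · intro hmem
    rcases List.mem_cons.mp hmem with h1 | h1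
    · exact hzb.ne h1.symm
    rcases List.mem_cons.mp h1 with h2 | h2
    · exact hcy (by rw [← hfb, h2])
    · obtain ⟨m, u, L', h3⟩ := mem_drop (y := y0) h2
      refine hC m ?_
      rw [h3]
      exact Cx_cons.mpr (Or.inl ⟨hzb, hfb⟩)
  · intro κ hκ
    obtain ⟨n, hn, hx⟩ := (hWB V k G f M z c hf hcz).1 b hb hA.2.2.1 κ hκ
    rw [hfb]
    exact hNL V k G W M f o z y0 L c κ n hf hV hcz hcy hC hn hx (fun κ' hκ' hadj =>
      hLAC κ hκ κ' hκ' hadj)

end Pool.Agent.Helper40.KT
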