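import Pool.Agent.Helper52.KT.St

/-!
# KT module UB: the side of an edge as a union
-/

set_option autoImplicit false

namespace Pool.Agent.Helper40.KT

open Pool.Agent.Helper26.Kempe Pool.Agent.Helper52.KT Pool.Agent.Helper52.KT.St
open Pool.Agent.Helper52.KR (N Zc Mn Hs mem_N)
open scoped Classical

theorem hUB : UB := by
  intro V _ k G f z b hf hzb
  refine Bc_induct (Finset.mem_insert_self _ _) ?_
  intro x y _ hp hxy hyb hc
  rcases Finset.mem_insert.mp hp with h1 | h1
  · subst h1
    have h2 : f y = f b := by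
      rcases hc with h | h
      · exact absurd h.symm (hf _ _ hxy)
      · exact h
    refine Finset.mem_insert_of_mem (Finset.mem_biUnion.mpr ⟨y, ?_, self_mem_Bc y _⟩)
    exact Finset.mem_erase.mpr ⟨hyb, mem_S.mpr ⟨hxy, h2⟩⟩
  · obtain ⟨y', hy', hx⟩ := Finset.mem_biUnion.mp h1
    by_cases hyz : y = z
    · rw [hyz]; exact Finset.mem_insert_self _ _
    · have h3 := (mem_S.mp (Finset.mem_erase.mp hy').2).2
      refine Finset.mem_insert_of_mem (Finset.mem_biUnion.mpr ⟨y', hy', ?_⟩)
      refine Bc_step hx hxy hyz ?_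
      rw [h3]
      exact hc.symm

end Pool.Agent.Helper40.KT
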